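import Pool.Agent.Helper54.QC.M_POA

/-!
# Project QD, part C, module HAR
-/

open Complex MeasureTheory Set Filter Topology Metric Real
open scoped Real ComplexConjugate

namespace Pool.Agent.Helper54.QC

open Pool.Agent.Helper69.QC

theorem har_of_lt {G : ℂ → ℂ} (hG : DifferentiableOn ℂ G (ball 0 1))
    (h0 : ∀ z ∈ ball (0 : ℂ) 1, 0 ≤ (G z).re) {ζ : ℂ} {ρ : ℝ} (hζ : ‖ζ‖ < ρ) (hρ1 : ρ < 1) :
    (G ζ).re ≤ (ρ + ‖ζ‖) / (ρ - ‖ζ‖) * (G 0).re := by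
  have hw : ζ ∈ ball (0 : ℂ) ρ := by simpa using hζ
  have hρ : 0 < ρ := pos_of_mem_ball hw
  have habs : |ρ| = ρ := abs_of_pos hρ
  have hsb : sphere (0 : ℂ) ρ ⊆ ball 0 1 :=
    sphere_subset_closedBall.trans (closedBall_subset_ball hρ1)
  have hk := poa_ker_cont hw
  rw [habs] at hk
  have hGs : ContinuousOn (fun s => (G s).re) (sphere (0 : ℂ) ρ) :=
    Complex.continuous_re.comp_continuousOn (hG.continuousOn.mono hsb)
  set K : ℝ := (ρ + ‖ζ‖) / (ρ - ‖ζ‖) with hK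
  have h1 : Real.circleAverage (fun s => poissonKernel 0 ζ s * (G s).re) 0 ρ ≤
      Real.circleAverage (fun s => K • (G s).re) 0 ρ := by
    refine circleAverage_mono (ContinuousOn.circleIntegrable hρ.le (hk.mul hGs))
      (ContinuousOn.circleIntegrable hρ.le (hGs.const_smul K)) ?_
    intro s hs
    have hb := poa_ker_bounds hw hs
    have hs' : s ∈ ball (0 : ℂ) 1 := hsb (by rwa [habs] at hs)
    exact mul_le_mul_of_nonneg_right hb.2 (h0 s hs')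
  rw [circleAverage_fun_smul, (poa_re hρ1 hw hG).1, (poa_re hρ1 hw hG).2, smul_eq_mul] at h1
  exact h1

theorem har_disc {G : ℂ → ℂ} (hG : DifferentiableOn ℂ G (ball 0 1))
    (h0 : ∀ z ∈ ball (0 : ℂ) 1, 0 ≤ (G z).re) {ζ : ℂ} (hζ : ‖ζ‖ < 1) :
    (G ζ).re ≤ (1 + ‖ζ‖) / (1 - ‖ζ‖) * (G 0).re := by
  have hne : (1 : ℝ) - ‖ζ‖ ≠ 0 := by linarith
  have hcont : ContinuousAt (fun ρ : ℝ => (ρ + ‖ζ‖) / (ρ - ‖ζ‖) * (G 0).re) 1 := by
    refine ContinuousAt.mul ?_ continuousAt_const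
    exact ContinuousAt.div (by fun_prop) (by fun_prop) hne
  have ht : Tendsto (fun ρ : ℝ => (ρ + ‖ζ‖) / (ρ - ‖ζ‖) * (G 0).re) (𝓝[<] 1)
      (𝓝 ((1 + ‖ζ‖) / (1 - ‖ζ‖) * (G 0).re)) := hcont.tendsto.mono_left nhdsWithin_le_nhds
  refine ge_of_tendsto ht ?_
  filter_upwards [Ioo_mem_nhdsLT hζ] with ρ hρ
  exact har_of_lt hG h0 hρ.1 hρ.2

theorem cHAR (mbb : St_MBB) : St_HAR := by
  intro f hf
  have main : ∀ w ∈ ball (0 : ℂ) 1, ∀ ζ ∈ ball (0 : ℂ) 1,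
      f (mb w ζ) ≤ (1 + ‖ζ‖) / (1 - ‖ζ‖) * f w := by
    intro w hw ζ hζ
    obtain ⟨hmd, hm0, hmζ, -⟩ := mbb w hw
    obtain ⟨G, hG, hGf, hGw⟩ := hf.2 w hw
    have hg : DifferentiableOn ℂ (fun z => G (mb w z)) (ball 0 1) :=
      hG.comp hmd (fun z hz => (hmζ z hz).1)
    have hpos : ∀ z ∈ ball (0 : ℂ) 1, 0 ≤ (G (mb w z)).re := fun z hz =>
      (hf.1 _ (hmζ z hz).1).trans (hGf _ (hmζ z hz).1)
    have h1 := har_disc hg hpos (mem_ball_zero_iff.1 hζ)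
    rw [hm0, hGw] at h1
    exact (hGf _ (hmζ ζ hζ).1).trans h1
  refine ⟨?_, main⟩
  intro p hp
  obtain ⟨hmd, hm0, hmζ, hmw⟩ := mbb p hp
  have hnp : (-p) ∈ ball (0 : ℂ) 1 := by simpa using hp
  obtain ⟨hmd', -, hmζ', -⟩ := mbb (-p) hnp
  have h0 : mb (-p) p = 0 := by
    have := (hmζ 0 (mem_ball_self one_pos)).2.2.1
    rwa [hm0] at this
  have hcz : Tendsto (fun z => ‖mb (-p) z‖) (𝓝[ball 0 1] p) (𝓝 0) := by
    have h := (hmd'.continuousOn p hp).norm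
    have h' : Tendsto (fun z => ‖mb (-p) z‖) (𝓝[ball 0 1] p) (𝓝 ‖mb (-p) p‖) := h
    rwa [h0, norm_zero] at h'
  have hu : Tendsto (fun z => (1 + ‖mb (-p) z‖) / (1 - ‖mb (-p) z‖) * f p) (𝓝[ball 0 1] p)
      (𝓝 (f p)) := by
    have h := (((tendsto_const_nhds (x := (1 : ℝ))).add hcz).div
      ((tendsto_const_nhds (x := (1 : ℝ))).sub hcz) (by norm_num)).mul_const (f p)
    simpa using h
  have hl : Tendsto (fun z => (1 - ‖mb (-p) z‖) / (1 + ‖mb (-p) z‖) * f p) (𝓝[ball 0 1] p)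
      (𝓝 (f p)) := by
    have h := (((tendsto_const_nhds (x := (1 : ℝ))).sub hcz).div
      ((tendsto_const_nhds (x := (1 : ℝ))).add hcz) (by norm_num)).mul_const (f p)
    simpa using h
  refine tendsto_of_tendsto_of_tendsto_of_le_of_le' hl hu ?_ ?_
  · filter_upwards [self_mem_nhdsWithin] with z hz
    have hz1 := (mbb z hz).2.2.1 (mb (-z) p) ((mbb (-z) (by simpa using hz)).2.2.1 p hp).1
    have hinv : mb z (mb (-z) p) = p := ((mbb z hz).2.2.1 p hp).2.2.2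
    have hn : ‖mb (-z) p‖ = ‖mb (-p) z‖ := (hmw z hz).1
    have h2 := main z hz (mb (-z) p) ((mbb (-z) (by simpa using hz)).2.2.1 p hp).1
    rw [hinv, hn] at h2
    have hlt : ‖mb (-p) z‖ < 1 := by
      have := (hmζ' z hz).1
      simpa using this
    have hpos : 0 < 1 + ‖mb (-p) z‖ := by positivity
    have hpos' : 0 < 1 - ‖mb (-p) z‖ := by linarith
    rw [div_mul_eq_mul_div, div_le_iff₀ hpos]
    rw [div_mul_eq_mul_div, le_div_iff₀ hpos'] at h2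
    linarith
  · filter_upwards [self_mem_nhdsWithin] with z hz
    have hinv : mb p (mb (-p) z) = z := (hmζ z hz).2.2.2
    have h2 := main p hp (mb (-p) z) (hmζ' z hz).1
    rwa [hinv] at h2

end Pool.Agent.Helper54.QC
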