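import Pool.Agent.Helper69.QC.St

/-!
# Project QD, part C, module DEF
-/

open Complex MeasureTheory Set Filter Topology Metric Real
open scoped Real ComplexConjugate

namespace Pool.Agent.Helper54.QC

open Pool.Agent.Helper69.QC

theorem def_mono {x y a b : ℝ} (hx : 0 ≤ x) (hy : 0 ≤ y) (hxa : x ≤ a) (hyb : y ≤ b)
    (ha : a < 1) (hb : b < 1) : (x + y) / (1 + x * y) ≤ (b + a) / (1 + b * a) := by
  have hy1 : y < 1 := lt_of_le_of_lt hyb hb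
  have ha0 : 0 ≤ a := hx.trans hxa
  have hb0 : 0 ≤ b := hy.trans hyb
  have s1 : (x + y) / (1 + x * y) ≤ (a + y) / (1 + a * y) := by
    rw [div_le_div_iff₀ (by positivity) (by positivity)]
    nlinarith [mul_nonneg (sub_nonneg.2 hxa) (by nlinarith : 0 ≤ 1 - y ^ 2)]
  have s2 : (a + y) / (1 + a * y) ≤ (b + a) / (1 + b * a) := by
    rw [div_le_div_iff₀ (by positivity) (by positivity)]
    nlinarith [mul_nonneg (sub_nonneg.2 hyb) (by nlinarith : 0 ≤ 1 - a ^ 2)]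
  exact s1.trans s2

theorem cDEF (rrb : St_RRB) (mbb : St_MBB) (har : St_HAR) (poa : St_POA) (poc : St_POC) :
    St_DEF := by
  intro c r0 r1 hc hr0 hr01 hr1 hr11
  obtain ⟨-, -, -, -, -, -, hsur, -⟩ := rrb
  set q : ℝ := (r0 + r1) / (1 + r0 * r1) with hq
  have hden : 0 < 1 + r0 * r1 := by positivity
  have hq1 : q < 1 := by
    rw [hq, div_lt_one hden]
    nlinarith [mul_pos (sub_pos.2 hr01) (sub_pos.2 hr11)]
  have hqr1 : r1 ≤ q := by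
    rw [hq, le_div_iff₀ hden]
    nlinarith [mul_nonneg hr0 (by nlinarith : 0 ≤ 1 - r1 ^ 2)]
  set ρ : ℝ := (q + 1) / 2 with hρ
  have hqρ : q < ρ := by rw [hρ]; linarith
  have hρ1 : ρ < 1 := by rw [hρ]; linarith
  have hr1ρ : r1 < ρ := lt_of_le_of_lt hqr1 hqρ
  have hρ0 : 0 < ρ := lt_of_le_of_lt hr1 hr1ρ
  obtain ⟨R, hR0, hRρ⟩ := hsur ρ hρ0.le hρ1
  set K : ℝ := (ρ + r1) / (ρ - r1) with hK
  have hK0 : 0 < K := div_pos (by linarith) (by linarith)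
  set H : ℝ := (1 + r1) / (1 - r1) with hH
  have hH0 : 0 < H := div_pos (by linarith) (by linarith)
  refine ⟨c / (H ^ 2 * K), by positivity, R, hR0, ?_⟩
  intro E hE p hp hdef ζ hζ
  have hζ1 : ζ ∈ ball (0 : ℂ) 1 := by
    rw [mem_ball_zero_iff]; exact lt_of_le_of_lt hζ hr11
  obtain ⟨hpd, hp0, hpm, hpw⟩ := mbb p hp
  set w : ℂ := mb p ζ with hw
  have hwb : w ∈ ball (0 : ℂ) 1 := (hpm ζ hζ1).1
  have hnw : (-w) ∈ ball (0 : ℂ) 1 := by simpa using hwb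
  obtain ⟨hwd, hw0, hwm, -⟩ := mbb w hwb
  obtain ⟨hnd, hn0, hnm, -⟩ := mbb (-w) hnw
  have hfM : Maj (fun z => E (mb w z)) := hE.comp hwd (fun z hz => (hwm z hz).1)
  set ζ0 : ℂ := mb (-w) p with hζ0
  have hnorm : ‖ζ0‖ = ‖ζ‖ := by
    rw [hζ0, (hpw w hwb).1, hw, (hpm ζ hζ1).2.2.1]
  have hζ0r : ‖ζ0‖ ≤ r1 := hnorm.le.trans hζ
  have hback : mb w ζ0 = p := (hwm p hp).2.2.2
  have hφd : DifferentiableOn ℂ (fun η => mb (-w) (mb p η)) (ball 0 1) :=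
    hnd.comp hpd (fun η hη => (hpm η hη).1)
  have hφb : ∀ η : ℂ, ‖η‖ ≤ r0 → ‖mb (-w) (mb p η)‖ < ρ := by
    intro η hη
    have hη1 : η ∈ ball (0 : ℂ) 1 := by
      rw [mem_ball_zero_iff]; exact lt_of_le_of_lt hη hr01
    have h1 := (hpw w hwb).2 η hη1
    have h2 : (‖mb (-w) p‖ + ‖η‖) / (1 + ‖mb (-w) p‖ * ‖η‖) ≤ q :=
      def_mono (norm_nonneg _) (norm_nonneg _) hζ0r hη hr11 hr01
    exact lt_of_le_of_lt (h1.trans h2) hqρ
  obtain ⟨-, -, hpc, -⟩ := poc _ hfM ρ hρ0 hρ1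
  have h1 := hpc _ hφd r0 hr0 hr01 hφb
  have hcong : Real.circleAverage (fun η => E (mb w (mb (-w) (mb p η)))) 0 r0 =
      Real.circleAverage (fun η => E (mb p η)) 0 r0 := by
    refine circleAverage_congr_sphere ?_
    intro η hη
    rw [abs_of_nonneg hr0] at hη
    have hη1 : η ∈ ball (0 : ℂ) 1 :=
      closedBall_subset_ball hr01 (sphere_subset_closedBall hη)
    show E (mb w (mb (-w) (mb p η))) = E (mb p η)
    rw [(hwm _ (hpm η hη1).1).2.2.2]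
  rw [hcong, hp0] at h1
  have hζ0b : ζ0 ∈ ball (0 : ℂ) ρ := by
    rw [mem_ball_zero_iff]; exact lt_of_le_of_lt hζ0r hr1ρ
  have h2 := (poa _ hfM ρ hρ0 hρ1 ζ0 hζ0b).2
  simp only [hback, hw0] at h2
  set D : ℝ := E w - Real.circleAverage (fun z => E (mb w z)) 0 ρ with hD
  have h3 : c * E p ^ 2 ≤ (ρ + ‖ζ0‖) / (ρ - ‖ζ0‖) * D := by linarith
  have hpos1 : 0 < ρ - ‖ζ0‖ := by linarith
  have hKpos : 0 < (ρ + ‖ζ0‖) / (ρ - ‖ζ0‖) := div_pos (by positivity) hpos1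
  have hD0 : 0 ≤ D := by
    have h4 : 0 ≤ (ρ + ‖ζ0‖) / (ρ - ‖ζ0‖) * D := le_trans (by positivity) h3
    exact nonneg_of_mul_nonneg_right h4 hKpos
  have hKle : (ρ + ‖ζ0‖) / (ρ - ‖ζ0‖) ≤ K := by
    rw [hK, div_le_div_iff₀ hpos1 (by linarith)]
    nlinarith
  have h5 : c * E p ^ 2 ≤ K * D := h3.trans (mul_le_mul_of_nonneg_right hKle hD0)
  have hEp : 0 ≤ E p := hE.1 p hp
  have hEw : 0 ≤ E w := hE.1 w hwb
  have h6 : E w ≤ H * E p := by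
    refine ((har E hE).2 p hp ζ hζ1).trans (mul_le_mul_of_nonneg_right ?_ hEp)
    have : 0 < 1 - ‖ζ‖ := by linarith
    rw [hH, div_le_div_iff₀ this (by linarith)]
    nlinarith
  have h7 : E w ^ 2 ≤ H ^ 2 * E p ^ 2 := by
    rw [← mul_pow]; exact pow_le_pow_left₀ hEw h6 2
  rw [hRρ]
  show c / (H ^ 2 * K) * E w ^ 2 ≤ D
  rw [div_mul_eq_mul_div, div_le_iff₀ (by positivity)]
  calc c * E w ^ 2 ≤ c * (H ^ 2 * E p ^ 2) := mul_le_mul_of_nonneg_left h7 hc.le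
    _ = H ^ 2 * (c * E p ^ 2) := by ring
    _ ≤ H ^ 2 * (K * D) := mul_le_mul_of_nonneg_left h5 (by positivity)
    _ = D * (H ^ 2 * K) := by ring

end Pool.Agent.Helper54.QC
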