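import Pool.Agent.Helper69.QC.St

/-!
# Project QD, part C, module MON
-/

open Complex MeasureTheory Set Filter Topology Metric Real
open scoped Real ComplexConjugate

namespace Pool.Agent.Helper54.QC

open Pool.Agent.Helper69.QC

theorem cMON (rrb : St_RRB) (har : St_HAR) (poc : St_POC) : St_MON := by
  intro E hE t t' ht htt
  obtain ⟨hr0, hr1, hrm, -, -, -, -, hrz⟩ := rrb
  have hsb : sphere (0 : ℂ) |rr t| ⊆ ball 0 1 := by
    rw [abs_of_nonneg (hr0 t ht)]
    exact sphere_subset_closedBall.trans (closedBall_subset_ball (hr1 t))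
  refine ⟨?_, ?_, ?_⟩
  · rcases eq_or_lt_of_le htt with h | h
    · rw [h]
    · have hρ : 0 < rr t' := by
        rw [← hrz]; exact hrm (lt_of_le_of_lt ht h)
      have hlt : rr t < rr t' := hrm h
      obtain ⟨-, h0, h3, -⟩ := poc E hE (rr t') hρ (hr1 t')
      have h4 := h3 id differentiableOn_id (rr t) (hr0 t ht) (hr1 t)
        (fun ζ hζ => lt_of_le_of_lt hζ hlt)
      rw [id, h0] at h4
      exact h4
  · exact circleAverage_nonneg_of_nonneg (fun z hz => hE.1 z (hsb hz))
  · intro M hM
    refine circleAverage_mono_on_of_le_circle ?_ (fun z hz => hM z (hsb hz))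
    refine ContinuousOn.circleIntegrable (hr0 t ht) ((har E hE).1.mono ?_)
    rwa [abs_of_nonneg (hr0 t ht)] at hsb

end Pool.Agent.Helper54.QC
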