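import Pool.Agent.Helper69.QC.St

/-!
# Project QD, part C, module POA
-/

open Complex MeasureTheory Set Filter Topology Metric Real
open scoped Real ComplexConjugate

namespace Pool.Agent.Helper54.QC

open Pool.Agent.Helper69.QC

theorem poa_ker_cont {ρ : ℝ} {w : ℂ} (hw : w ∈ ball (0 : ℂ) ρ) :
    ContinuousOn (fun s => poissonKernel 0 w s) (sphere (0 : ℂ) |ρ|) := by
  have h := continuousOn_herglotzRieszKernel_sphere hw
  have h2 : ContinuousOn (Complex.re ∘ herglotzRieszKernel 0 w) (sphere (0 : ℂ) |ρ|) :=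
    Complex.continuous_re.comp_continuousOn h
  rw [← poissonKernel_eq_re_herglotzRieszKernel] at h2
  exact h2

theorem poa_ker_bounds {ρ : ℝ} {w s : ℂ} (hw : w ∈ ball (0 : ℂ) ρ)
    (hs : s ∈ sphere (0 : ℂ) |ρ|) : 0 ≤ poissonKernel 0 w s ∧
      poissonKernel 0 w s ≤ (ρ + ‖w‖) / (ρ - ‖w‖) := by
  have hρ : 0 < ρ := pos_of_mem_ball hw
  rw [abs_of_pos hρ] at hs
  have hs' : ‖s‖ = ρ := by simpa using hs
  have hw' : ‖w‖ < ρ := by simpa using hw
  constructor
  · rw [poissonKernel_def, sub_zero, sub_zero, hs']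
    have : ‖w‖ ^ 2 ≤ ρ ^ 2 := pow_le_pow_left₀ (norm_nonneg _) hw'.le 2
    exact div_nonneg (by linarith) (by positivity)
  · rw [poissonKernel_eq_re_herglotzRieszKernel]
    simpa [herglotzRieszKernel_def] using re_herglotzRieszKernel_le hs hw

theorem poa_re {ρ : ℝ} {w : ℂ} (hρ : ρ < 1) (hw : w ∈ ball (0 : ℂ) ρ) {G : ℂ → ℂ}
    (hG : DifferentiableOn ℂ G (ball 0 1)) :
    Real.circleAverage (fun s => poissonKernel 0 w s * (G s).re) 0 ρ = (G w).re ∧
      Real.circleAverage (fun s => (G s).re) 0 ρ = (G 0).re := by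
  have hρ0 : 0 < ρ := pos_of_mem_ball hw
  have hcb : closedBall (0 : ℂ) ρ ⊆ ball 0 1 := closedBall_subset_ball hρ
  have hd : DiffContOnCl ℂ G (ball 0 ρ) := by
    refine DifferentiableOn.diffContOnCl ?_
    rw [closure_ball 0 hρ0.ne']
    exact hG.mono hcb
  have hsp : ContinuousOn G (sphere (0 : ℂ) |ρ|) := by
    rw [abs_of_pos hρ0]
    exact hG.continuousOn.mono (sphere_subset_closedBall.trans hcb)
  have hGi : CircleIntegrable G 0 ρ :=
    ContinuousOn.circleIntegrable hρ0.le (by rwa [abs_of_pos hρ0] at hsp)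
  constructor
  · have h1 := hd.circleAverage_poissonKernel_smul hw
    have hint : CircleIntegrable (poissonKernel 0 w • G) 0 ρ := by
      refine ContinuousOn.circleIntegrable hρ0.le ?_
      have hk := poa_ker_cont hw
      rw [abs_of_pos hρ0] at hk hsp
      exact hk.smul hsp
    have h2 := Complex.reCLM.circleAverage_comp_comm hint
    rw [h1] at h2
    rw [← Complex.reCLM_apply (G w), ← h2]
    congr 1
    ext s
    simp
  · have hd' : DiffContOnCl ℂ G (ball 0 |ρ|) := by rwa [abs_of_pos hρ0]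
    have h1 := hd'.circleAverage
    have h2 := Complex.reCLM.circleAverage_comp_comm hGi
    rw [h1] at h2
    rw [← Complex.reCLM_apply (G 0), ← h2]
    congr 1

theorem cPOA (har : St_HAR) : St_POA := by
  intro f hf ρ hρ hρ1 w hw
  have hfc := (har f hf).1
  have hsb : sphere (0 : ℂ) ρ ⊆ ball 0 1 :=
    sphere_subset_closedBall.trans (closedBall_subset_ball hρ1)
  have hcb : ball (0 : ℂ) ρ ⊆ ball 0 1 := ball_subset_ball hρ1.le
  have habs : |ρ| = ρ := abs_of_pos hρ
  have hfs : ContinuousOn f (sphere (0 : ℂ) ρ) := hfc.mono hsb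
  have hk := poa_ker_cont hw
  rw [habs] at hk
  have hfi : CircleIntegrable f 0 ρ := ContinuousOn.circleIntegrable hρ.le hfs
  have hkf : CircleIntegrable (fun s => poissonKernel 0 w s * f s) 0 ρ :=
    ContinuousOn.circleIntegrable hρ.le (hk.mul hfs)
  constructor
  · obtain ⟨G, hG, hGf, hGw⟩ := hf.2 w (hcb hw)
    have hGs : ContinuousOn (fun s => (G s).re) (sphere (0 : ℂ) ρ) :=
      Complex.continuous_re.comp_continuousOn (hG.continuousOn.mono hsb)
    have hkG : CircleIntegrable (fun s => poissonKernel 0 w s * (G s).re) 0 ρ :=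
      ContinuousOn.circleIntegrable hρ.le (hk.mul hGs)
    have h1 : PI f ρ w ≤ Real.circleAverage (fun s => poissonKernel 0 w s * (G s).re) 0 ρ := by
      refine circleAverage_mono hkf hkG ?_
      intro s hs
      refine mul_le_mul_of_nonneg_left (hGf s (hsb ?_)) (poa_ker_bounds hw hs).1
      rwa [habs] at hs
    rw [(poa_re hρ1 hw hG).1, hGw] at h1
    exact h1
  · obtain ⟨G, hG, hGf, hG0⟩ := hf.2 0 (mem_ball_self one_pos)
    have hGs : ContinuousOn (fun s => (G s).re) (sphere (0 : ℂ) ρ) :=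
      Complex.continuous_re.comp_continuousOn (hG.continuousOn.mono hsb)
    have hkG : CircleIntegrable (fun s => poissonKernel 0 w s * (G s).re) 0 ρ :=
      ContinuousOn.circleIntegrable hρ.le (hk.mul hGs)
    have hGi : CircleIntegrable (fun s => (G s).re) 0 ρ :=
      ContinuousOn.circleIntegrable hρ.le hGs
    have hd : CircleIntegrable (fun s => poissonKernel 0 w s * (G s).re
        - poissonKernel 0 w s * f s) 0 ρ :=
      ContinuousOn.circleIntegrable hρ.le ((hk.mul hGs).sub (hk.mul hfs))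
    set K : ℝ := (ρ + ‖w‖) / (ρ - ‖w‖) with hK
    have hd2 : CircleIntegrable (fun s => K • ((G s).re - f s)) 0 ρ :=
      ContinuousOn.circleIntegrable hρ.le ((hGs.sub hfs).const_smul K)
    have h1 : Real.circleAverage (fun s => poissonKernel 0 w s * (G s).re
        - poissonKernel 0 w s * f s) 0 ρ ≤ Real.circleAverage (fun s => K • ((G s).re - f s)) 0 ρ := by
      refine circleAverage_mono hd hd2 ?_
      intro s hs
      have hb := poa_ker_bounds hw hs
      have hs' : s ∈ ball (0 : ℂ) 1 := hsb (by rwa [habs] at hs)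
      have h3 : 0 ≤ (G s).re - f s := sub_nonneg.2 (hGf s hs')
      have h4 := mul_le_mul_of_nonneg_right hb.2 h3
      simp only [smul_eq_mul]
      linarith
    rw [circleAverage_fun_sub hkG hkf, circleAverage_fun_smul, circleAverage_fun_sub hGi hfi,
      (poa_re hρ1 hw hG).1, (poa_re hρ1 hw hG).2, hG0, smul_eq_mul] at h1
    have h5 := hGf w (hcb hw)
    have h6 : PI f ρ w = Real.circleAverage (fun s => poissonKernel 0 w s * f s) 0 ρ := rfl
    rw [h6]
    linarith

end Pool.Agent.Helper54.QC
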