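import Pool.Agent.Helper69.QC.St

/-!
# Project QD, part C, module POC
-/

open Complex MeasureTheory Set Filter Topology Metric Real
open scoped Real ComplexConjugate

namespace Pool.Agent.Helper54.QC

open Pool.Agent.Helper69.QC

/-- The holomorphic function whose real part is the Poisson integral. -/
noncomputable def pocH (f : ℂ → ℝ) (ρ : ℝ) (w : ℂ) : ℂ :=
  Real.circleAverage (fun ζ => herglotzRieszKernel 0 w ζ • (f ζ : ℂ)) 0 ρ

theorem poc_mean {H : ℂ → ℂ} {r : ℝ} (hr : 0 ≤ r) {U : Set ℂ} (hU : IsOpen U)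
    (hrU : closedBall (0 : ℂ) r ⊆ U) (hH : DifferentiableOn ℂ H U) :
    Real.circleAverage (fun s => (H s).re) 0 r = (H 0).re := by
  have habs : |r| = r := abs_of_nonneg hr
  have h1 : Real.circleAverage H 0 r = H 0 := by
    refine circleAverage_of_differentiable_on_off_countable (s := ∅) countable_empty ?_ ?_
    · rw [habs]; exact hH.continuousOn.mono hrU
    · intro z hz
      rw [habs] at hz
      exact hH.differentiableAt (hU.mem_nhds (hrU (ball_subset_closedBall hz.1)))
  have hi : CircleIntegrable H 0 r :=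
    ContinuousOn.circleIntegrable hr (hH.continuousOn.mono (sphere_subset_closedBall.trans hrU))
  have h2 := Complex.reCLM.circleAverage_comp_comm hi
  rw [h1] at h2
  rw [← Complex.reCLM_apply (H 0), ← h2]
  congr 1

theorem cPOC (har : St_HAR) (poa : St_POA) : St_POC := by
  intro f hf ρ hρ hρ1
  have hfc := (har f hf).1
  have hsb : sphere (0 : ℂ) ρ ⊆ ball 0 1 :=
    sphere_subset_closedBall.trans (closedBall_subset_ball hρ1)
  have hcb : ball (0 : ℂ) ρ ⊆ ball 0 1 := ball_subset_ball hρ1.le
  have habs : |ρ| = ρ := abs_of_pos hρ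
  have hfs : ContinuousOn f (sphere (0 : ℂ) ρ) := hfc.mono hsb
  have hfi : CircleIntegrable f 0 ρ := ContinuousOn.circleIntegrable hρ.le hfs
  have hfiC : CircleIntegrable (fun ζ => (f ζ : ℂ)) 0 ρ :=
    ContinuousOn.circleIntegrable hρ.le (Complex.continuous_ofReal.comp_continuousOn hfs)
  have hH : DifferentiableOn ℂ (pocH f ρ) (ball 0 ρ) :=
    differentiableOn_circleAverage_herglotzRieszKernel_smul hfiC
  have hre : ∀ w ∈ ball (0 : ℂ) ρ, PI f ρ w = (pocH f ρ w).re := by
    intro w hw
    unfold pocH
    rw [re_circleAverage_herglotzRieszKernel_smul hfi hw, ← poissonKernel_eq_re_herglotzRieszKernel]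
    rfl
  have hcont : ContinuousOn (PI f ρ) (ball 0 ρ) :=
    (Complex.continuous_re.comp_continuousOn hH.continuousOn).congr (fun w hw => hre w hw)
  have h0 : PI f ρ 0 = Real.circleAverage f 0 ρ := by
    unfold PI
    refine circleAverage_congr_sphere ?_
    intro s hs
    rw [habs] at hs
    have hs' : ‖s‖ = ρ := by simpa using hs
    have : poissonKernel 0 0 s = 1 := by
      rw [poissonKernel_def, sub_zero, sub_zero, sub_zero, hs', norm_zero]
      field_simp
      ring
    simp [this]
  refine ⟨hcont, h0, ?_, ?_⟩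
  · intro φ hφ r hr hr1 hb
    set U : Set ℂ := ball (0 : ℂ) 1 ∩ φ ⁻¹' ball (0 : ℂ) ρ with hUdef
    have hU : IsOpen U := hφ.continuousOn.isOpen_inter_preimage isOpen_ball isOpen_ball
    have hrU : closedBall (0 : ℂ) r ⊆ U := fun z hz => by
      refine ⟨closedBall_subset_ball hr1 hz, ?_⟩
      rw [mem_closedBall_zero_iff] at hz
      simpa using hb z hz
    have hcomp : DifferentiableOn ℂ (fun z => pocH f ρ (φ z)) U :=
      hH.comp (hφ.mono inter_subset_left) (fun z hz => hz.2)
    have h0r : (0 : ℂ) ∈ closedBall (0 : ℂ) r := mem_closedBall_self hr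
    have h1 := poc_mean hr hU hrU hcomp
    rw [hre _ (hrU h0r).2, ← h1]
    have hsU : sphere (0 : ℂ) r ⊆ U := sphere_subset_closedBall.trans hrU
    refine circleAverage_mono ?_ ?_ ?_
    · exact ContinuousOn.circleIntegrable hr
        ((Complex.continuous_re.comp_continuousOn hcomp.continuousOn).mono hsU)
    · refine ContinuousOn.circleIntegrable hr ?_
      exact hfc.comp (hφ.continuousOn.mono (hsU.trans inter_subset_left))
        (fun z hz => hcb (hsU hz).2)
    · intro z hz
      rw [abs_of_nonneg hr] at hz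
      have hz2 : φ z ∈ ball (0 : ℂ) ρ := (hsU hz).2
      have h3 := (poa f hf ρ hρ hρ1 (φ z) hz2).1
      rwa [hre _ hz2] at h3
  · intro r hr hrρ
    have hrU : closedBall (0 : ℂ) r ⊆ ball 0 ρ := closedBall_subset_ball hrρ
    have h1 := poc_mean hr isOpen_ball hrU hH
    rw [← h0, hre 0 (mem_ball_self hρ), ← h1]
    refine circleAverage_congr_sphere ?_
    intro z hz
    rw [abs_of_nonneg hr] at hz
    exact hre z (hrU (sphere_subset_closedBall hz))

end Pool.Agent.Helper54.QC
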